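import Pool.Agent.Q59.IB.Num

/-!
# Homological and numerical equivalence on `Z × C ^ n`, `Z` an arbitrary variety, any characteristic

Let `k₀` be a field, of characteristic zero or positive, and `Z` an ARBITRARY smooth projective variety
over `k₀`. Let `T` be a geometrically irreducible variety over `k₀` with the function field `k`, and `C` a
curve over `k` (the generic member of a family of curves over `T`), which is a Galois cover of a smooth
projective curve of genus `g ≥ 0`, ramified over some points, with the group `G` and with ramification
indices which divide `N` (in positive characteristic: the order of `G` is prime to it). We compare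
the numerically trivial cycles on `X = Z × C ^ n`, over the algebraic closure of `k`, and on `Z`.

**Cohomology.** The `ℓ`-adic cohomology of `X` is the sum of tensor products of the cohomology `W` of `Z`
and of tensor powers of `H ^ 1 (C)`. With coefficients in an algebraic closure of `ℚ_ℓ`, identified
with `ℂ`, the latter is the direct sum of the `χ ⊗ V_χ`, where `χ` runs through the irreducible
representations of `G` and `V_χ` belongs to a local system `L_χ`; `ex` is the multiset of the exponents
of the nontrivial eigenvalues of its local monodromies. The structure `LocalSystems` (in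
`Pool.Agent.Q59.IB.Covers`) contains these numerical invariants for a finite family of local systems on
one or several curves. The letters form bases of the `V_i` which are dual to each other, `ε x = ± 1` is the
pairing of the letter `x` and its dual. The tensors with `s` factors and values in `W` are the functions
on the words of length `s` with values in `W`; the intersection form is given, up to a sign which depends
only on the degree, by the form `deg` of `Z` and by the pairings of the letters (`degX`).

**Galois action.** An element `γ` of the Galois group of `k` acts on the sum `H` of the `V_i` by a map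
`mat γ` which preserves the `V_i` and multiplies the pairings by the cyclotomic character `cyc γ`; `det γ i`
is the determinant on `V_i`. It acts by `rep γ` on `W`, through the Galois group of `k₀` (Tate twists are
included in `rep`). Let `D` be the group of the maps of `H` which preserve the `V_i` and the pairings and
have determinant one on all `V_i`. For sufficiently general families `D` is the identity component of the
Zariski closure of the image of the geometric fundamental group of `T` (for `T` the moduli space of the
pointed curves with level structures and `G` commutative, `g ≥ 3`: Looijenga, Boggi; `G` arbitrary,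
`g` large: Landesman, Litt, Sawin; `g = 0`: Deligne, Mostow, Katz; the case of positive characteristic
prime to the order of `G` follows from characteristic zero by the comparison of tame fundamental
groups). A cycle on `X` is defined over a finite extension of `k`, and `D` acts trivially on `W`; so its
class is invariant under `D`, and fixed by an open subgroup of the Galois group of `k`.

**Cycles.** `AZ` is the group of the classes of the cycles on `Z`, of all codimensions, with integral
coefficients. `R` is a number field over which the representations `χ` are defined, and `BX` is the space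
of the combinations with coefficients in `R` of the components with `s` factors `V_i` of the classes of
the cycles on `X` (the Künneth projectors of the curves and the matrix units of the group algebra of `G`
with coefficients in `R` are algebraic correspondences; so if all numerically trivial elements of
`BX` vanish, for all `s`, then homological and numerical equivalence coincide on `X`). The pairings are
algebraic. The product of determinants `det V_i`, `i = μ j`, is isomorphic to the line of a
Fermat variety of degree `N` with the character `exAll μ`, the union of the `ex i`, up to a Tate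
twist (Schoen for unramified covers; see `MP_e12fcd_ag.CoversTimesVarieties`). If `exAll μ` is a union of
pairs `(a, -a)` (`Balanced`), or in the family generated by the pairs, the standard characters, the
characters with four entries and the curve products (`AlgebraicLine`), then this line is spanned by an
algebraic cycle (Shioda, Aoki; in positive characteristic by specialization). So the external products
of cycles on `Z` with products of pairings and such determinants are combinations of cycles on `X` with
coefficients in `R`, and the contractions of cycles on `X` with them are combinations of cycles on `Z`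
(`Cycles`).

**The theorem.** `numZ` and `numX` are the `R`-spaces of the combinations of cycle classes which are
numerically trivial; they measure the difference between homological and numerical equivalence.

(1) Suppose that the exponents of all local systems form pairs `(a, -a)`: this is the case if the cover
is unramified, or if the local monodromies form pairs of mutually inverse conjugacy classes or
are conjugate to their inverses (for instance for the symmetric groups and all Weyl groups). Then there is
a number `n`, which depends only on the curves and on `s`, such that for ALL varieties `Z` the space `numX` is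
isomorphic to the `n`-th power of `numZ`; **if homological and numerical equivalence coincide on `Z`,
then they coincide on all `Z × C ^ n`.**

(2) Suppose that all exponents form doubles `(a, a)` and pairs, with no condition on `N` (for instance
`C` is the curve `y ^ m = f (x)` with a generic polynomial `f` of even degree divisible by `m`), or
`|ex i| ≤ B dim V_i` and no element of the finite set `ExcludedEven (B s)` or `ExcludedOdd (B s)` divides `N`
(all these numbers are at least `55`; `B = 3` is always sufficient for local systems of rank one)
(`Tame`). Suppose that the determinants of the `V_i` occur in `W` only in a trivial way (`NoCM`: in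
characteristic zero this is so if `W` contains no characters of CM type of a finite extension of `k₀`,
as the infinity type of the character of the product is given by the numbers `offset`). Then the same is
true.
-/

namespace Pool.Agent.Results.MP_0c8446_ag.CoversTimesVarieties

open Pool.Agent.Q59.GC Pool.Agent.Q59.VZ Pool.Agent.Q59.IB

/-- The action of the Galois group `Γ` on the sum `H` of the spaces `V_i` (by `mat γ`, which multiplies
the pairings by `cyc γ` and has the determinant `det γ i` on `V_i`) and on the cohomology `W` of `Z`
(by `rep γ`). -/
structure GaloisModule {N : ℕ} {I : Type} [Fintype I] [DecidableEq I] (S : LocalSystems N I)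
    (ε : Letter S.labels → ℂ) (W : Type) [AddCommGroup W] [Module ℂ W] where
  Γ : Type
  mat : Γ → Matrix (Letter S.labels) (Letter S.labels) ℂ
  cyc : Γ → ℂ
  det : Γ → I → ℂ
  sim : ∀ γ, IsSimilitude ε (cyc γ) (det γ) (mat γ)
  rep : Γ → W →ₗ[ℂ] W

/-- The exponents of the products of determinants which are known to be algebraic. -/
def KnownLine {N : ℕ} (u : Multiset (ZMod N)) : Prop := Balanced u ∨ AlgebraicLine N u

/-- The group `AZ` of the classes of cycles on `Z` (intersection numbers are integers), the intersection
form `deg` of `Z`, and the space `BX` of the combinations with coefficients in `R` of classes of cycles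
on `X` (with `s` tensor factors): they are invariant under `D`, and external products and
contractions with products of pairings and known determinants are combinations of classes of cycles. -/
structure Cycles {N : ℕ} {I : Type} [Fintype I] [DecidableEq I] (R : Subfield ℂ)
    (S : LocalSystems N I) (ε : Letter S.labels → ℂ) (s : ℕ) (W : Type) [AddCommGroup W]
    [Module ℂ W] where
  deg : W →ₗ[ℂ] W →ₗ[ℂ] ℂ
  AZ : AddSubgroup W
  BX : Submodule R ((Fin s → Letter S.labels) → W)
  int : ∀ a ∈ AZ, ∀ b ∈ AZ, ∃ m : ℤ, deg a b = m
  inv : ∀ x ∈ BX, x ∈ invariants ε (Fin s) W
  ext : ∀ d : Data S.labels (Fin s), KnownLine (exAll S.labels d.μ) →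
    ∀ z ∈ Submodule.span R (AZ : Set W), (fun w => d.val ε w • z) ∈ BX
  con : ∀ d : Data S.labels (Fin s), KnownLine (exAll S.labels d.μ) → ∀ x ∈ BX,
    contract (d.val ε) x ∈ Submodule.span R (AZ : Set W)

section

variable {N : ℕ} {I : Type} [Fintype I] [DecidableEq I] {S : LocalSystems N I}
  {ε : Letter S.labels → ℂ} {W : Type} [AddCommGroup W] [Module ℂ W] {R : Subfield ℂ} {s : ℕ}

/-- The numerically trivial combinations of classes of cycles on `Z`, with coefficients in `R`. -/
noncomputable def Cycles.numZ (C : Cycles R S ε s W) : Submodule R W :=
  numTrivial R C.deg (Submodule.span R (C.AZ : Set W))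

/-- The numerically trivial combinations of classes of cycles on `X`, with coefficients in `R`. -/
noncomputable def Cycles.numX (C : Cycles R S ε s W) :
    Submodule R ((Fin s → Letter S.labels) → W) := numTrivial R (degX ε C.deg) C.BX

/-- Homological and numerical equivalence coincide on `Z` (for cycles with integral coefficients). -/
def Cycles.HomNumZ (C : Cycles R S ε s W) : Prop :=
  ∀ a ∈ C.AZ, (∀ b ∈ C.AZ, C.deg a b = 0) → a = 0

/-- Homological and numerical equivalence coincide on `X` (even for coefficients in `R`). -/
def Cycles.HomNumX (C : Cycles R S ε s W) : Prop :=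
  ∀ x ∈ C.BX, (∀ y ∈ C.BX, degX ε C.deg x y = 0) → x = 0

/-- Products of determinants and pairings have partners in `W` only if the infinity type of their
character, given by the numbers `offset`, is trivial. -/
def NoCM (G : GaloisModule S ε W) : Prop :=
  ∀ (l : ℕ) (μ : Fin l → I) (p : ℕ) (z : W), z ≠ 0 →
    (∀ γ, ((∏ j, G.det γ (μ j)) * G.cyc γ ^ p) • G.rep γ z = z) →
    ∀ t : (ZMod N)ˣ, offset (t : ZMod N) (exAll S.labels μ) = 0

/-- Each combination of classes of cycles on `X` is fixed by a subgroup of the Galois group (of finite
index, it may depend on the cycles) with `NoCM`. -/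
def Cycles.Fixed (C : Cycles R S ε s W) : Prop :=
  ∀ x ∈ C.BX, ∃ G : GaloisModule S ε W, NoCM G ∧ ∀ γ w, G.rep γ (actW (G.mat γ) x w) = x w

/-- `numX` is isomorphic to the `n`-th power of `numZ`, and if homological and numerical equivalence
coincide on `Z` then they coincide on `X`. -/
def Cycles.Compares (C : Cycles R S ε s W) (n : ℕ) : Prop :=
  Nonempty ((Fin n → C.numZ) ≃ₗ[R] C.numX) ∧ (C.HomNumZ → C.HomNumX)

/-- the common part of the proof -/
lemma compares (hε : ∀ x : Letter S.labels, ¬ S.alt x.1 = true → ε (dual x) = -ε x)
    (hε1 : ∀ x, ε x = 1 ∨ ε x = -1) {n : ℕ} {d : Fin n → Data S.labels (Fin s)}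
    (hd : LinearIndependent ℂ (fun j => (d j).val ε))
    (h1 : ∀ j, KnownLine (exAll S.labels (d j).μ))
    (h2 : ∀ j, KnownLine (exAll S.labels (d j).star.μ)) (C : Cycles R S ε s W)
    (hsp : ∀ x ∈ C.BX, ∃ z : Fin n → W, x = Pool.Agent.Q59.IB.comb (fun j => (d j).val ε) z) :
    C.Compares n := by
  have hη : ∀ x : Letter S.labels, ε x * ε (dual x) = (fun i : I => if S.alt i = true then (1 : ℂ) else -1) x.1 := by
    intro x
    by_cases h : S.alt x.1 = true
    · have h3 : dual x = x := dual_of_orth (Λ := S.labels) h
      rw [h3]
      change _ = if S.alt x.1 = true then (1 : ℂ) else -1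
      rw [if_pos h]
      rcases hε1 x with h4 | h4 <;> rw [h4] <;> norm_num
    · change _ = if S.alt x.1 = true then (1 : ℂ) else -1
      rw [if_neg h, hε x h]
      rcases hε1 x with h4 | h4 <;> rw [h4] <;> norm_num
  have hη0 : ∀ i : I, (fun i : I => if S.alt i = true then (1 : ℂ) else -1) i ≠ 0 := by
    intro i
    change (if S.alt i = true then (1 : ℂ) else -1) ≠ 0
    split_ifs <;> norm_num
  have h3 := num_coords hε1 hη0 hη hd (R := R) (deg := C.deg)
    (BZ := Submodule.span R (C.AZ : Set W)) (BX := C.BX)
    (fun j => C.ext _ (h1 j)) (fun j => C.ext _ (h2 j)) (fun j => C.con _ (h1 j)) hsp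
  refine ⟨?_, fun hZ x hx hx2 => ?_⟩
  · exact equiv_of_coords ((Pool.Agent.Q59.IB.comb fun j => (d j).val ε).restrictScalars R)
      (fun z z' h => comb_injective hd h) h3 fun x hx => hsp x (mem_numTrivial.mp hx).1
  · obtain ⟨z, rfl⟩ := hsp x hx
    have h5 := (h3 z).mp (mem_numTrivial.mpr ⟨hx, hx2⟩)
    have h6 : z = 0 := funext fun j => nondeg_field C.int hZ _ (h5 j)
    rw [h6, map_zero]

end

/-- **Homological and numerical equivalence on the products of an arbitrary variety with powers of
curves.** -/
theorem result (N : ℕ) [NeZero N] (I : Type) [Fintype I] [DecidableEq I] (S : LocalSystems N I)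
    (ε : Letter S.labels → ℂ) (hε : ∀ x : Letter S.labels, ¬ S.alt x.1 = true → ε (dual x) = -ε x)
    (hε1 : ∀ x, ε x = 1 ∨ ε x = -1) (s : ℕ) :
    ((∀ i, Balanced (S.ex i)) → ∃ n : ℕ, ∀ (W : Type) [AddCommGroup W] [Module ℂ W]
      (R : Subfield ℂ) (C : Cycles R S ε s W), C.Compares n) ∧
    (Tame S s → ∃ n : ℕ, ∀ (W : Type) [AddCommGroup W] [Module ℂ W]
      (R : Subfield ℂ) (C : Cycles R S ε s W), C.Fixed → C.Compares n) := by
  classical
  have hε0 : ∀ x, ε x ≠ 0 := fun x => by
    rcases hε1 x with h | h
    · rw [h]; exact one_ne_zero
    · rw [h]; exact neg_ne_zero.mpr one_ne_zero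
  refine ⟨fun hbal => ?_, fun htame => ?_⟩
  · obtain ⟨n, d, hd, hpos, hall⟩ := exists_comb (Λ := S.labels) ε hε hε0 (Fin s)
    refine ⟨n, fun W _ _ R C => compares hε hε1 hd (fun j => Or.inl ?_) (fun j => Or.inl ?_) C
      fun x hx => hall W x (C.inv x hx)⟩
    · exact Balanced.sum _ _ fun i => hbal ((d j).μ i)
    · exact Balanced.sum _ _ fun i => hbal _
  · obtain ⟨n, d, hd, hQ, hspan⟩ := exists_data_basis (κ := Fin s) ε
      fun d : Data S.labels (Fin s) => (∀ i, 0 < S.dim (d.μ i)) ∧
        ∀ t : (ZMod N)ˣ, offset (t : ZMod N) (exAll S.labels d.μ) = 0
    have hcard : ∀ d : Data S.labels (Fin s), ∑ i, S.dim (d.μ i) ≤ s := fun d => by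
      have h1 := d.card
      rw [Fintype.card_fin] at h1
      have h2 : ∑ j, S.labels.dim (d.μ j) = ∑ i, S.dim (d.μ i) := rfl
      omega
    have hknown : ∀ d : Data S.labels (Fin s), (∀ i, 0 < S.dim (d.μ i)) →
        (∀ t : (ZMod N)ˣ, offset (t : ZMod N) (exAll S.labels d.μ) = 0) →
        KnownLine (exAll S.labels d.μ) := by
      intro d h1 h2
      rcases algebraicLine_of_offset htame h1 (hcard d) h2 with h | h
      · refine Or.inl ⟨0, ?_⟩
        rw [h]
        simp
      · exact Or.inr h
    refine ⟨n, fun W _ _ R C hC => compares hε hε1 hd (fun j => hknown _ (hQ j).1 (hQ j).2)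
      (fun j => hknown _ (fun i => ?_) fun t => ?_) C fun x hx => ?_⟩
    · have h1 : S.dim ((d j).star.μ i) = S.dim ((d j).μ i) := S.labels.dim_star _
      rw [h1]
      exact (hQ j).1 i
    · have h1 : exAll S.labels (d j).star.μ = (exAll S.labels (d j).μ).map fun a => -a := by
        unfold exAll
        rw [← Multiset.coe_mapAddMonoidHom, map_sum]
        exact Finset.sum_congr rfl fun i _ => S.ex_star ((d j).μ i)
      rw [h1, offset_star t _ (exAll_zero_notMem (Λ := S.labels) _), (hQ j).2 t, neg_zero]
    · obtain ⟨G, hNo, hfix⟩ := hC x hx
      obtain ⟨n', d', z', -, hpos', hxz, hz'⟩ := fixed_coords (Λ := S.labels) hε hε0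
        (mem_invariants.mp (C.inv x hx)) G.sim (rep := G.rep) hfix
      have h1 : x ∈ spanZ (fun _ μ z => z = 0 ∨ ((∀ i, 0 < S.dim (μ i)) ∧
          ∀ t : (ZMod N)ˣ, offset (t : ZMod N) (exAll S.labels μ) = 0)) ε (Fin s) := by
        rw [hxz]
        refine sum_mem_spanZ d' z' fun j => ?_
        by_cases h0 : z' j = 0
        · exact Or.inl h0
        · exact Or.inr ⟨hpos' j, hNo _ _ (d' j).p (z' j) h0 (hz' j)⟩
      obtain ⟨z, -, hz⟩ := exists_coords (A := (⊤ : Submodule ℂ W)) hspan
        (fun d'' z h => ⟨trivial, h.symm.imp id id⟩) h1
      exact ⟨z, hz⟩

end Pool.Agent.Results.MP_0c8446_ag.CoversTimesVarieties
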