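import Pool.Agent.Q43.HN.NumMain
import Pool.Agent.Q43.HN.Primes

/-!
# Homological and numerical equivalence for products of elliptic curves and of simple abelian varieties
of different prime dimensions

Let `A` be an abelian variety over an algebraic closure of the field with `p` elements, isogenous to a
product of elliptic curves and of simple abelian varieties `A i` of different prime dimensions; in
dimension two the CM field `E i` should have no imaginary quadratic subfield, and any two of the fields
`E i` in odd prime dimensions which have imaginary quadratic subfields should have the same one (this is
not needed for cycles of codimension `r` if the sum of the two dimensions is greater than `2 r`). Or let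
the multiplicative relations with at most `2 r` terms between the Frobenius eigenvalues be generated, up
to torsion, by relations with at most two terms and one further relation. Let `Y` be isogenous to a
product of powers of the factors of `A` and of a supersingular abelian variety, and let `ℓ ≠ p` be a
prime number which does not split in the imaginary quadratic subfields of the fields `E i` (for the
factors of dimension greater than one which are not supersingular). Then homological equivalence, for
`ℓ`-adic cohomology, and numerical equivalence coincide for the cycles of codimension `r` on `Y`.

The proof shows that each relation between the Frobenius eigenvalues is a product of relations with at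
most two terms and of a relation between norms to one imaginary quadratic field `K`. A class with a
nonzero component in a line `ℓ` of the cohomology gives a nonzero class in the Weil motive of `K`, of
rank two, on an auxiliary abelian variety; since `K` does not embed in the field of `ℓ`-adic numbers,
both components of the latter class are different from zero, and this gives a class with a nonzero
component in the line dual to the given one.
-/

set_option autoImplicit false

namespace Pool.Agent.Results.MP_0c8446_ag.PrimeDimensions

open NumberField Pool.Agent.H204R3.CM Pool.Agent.W547.KB Pool.Agent.W547.LD Pool.Agent.W547.HR
  Pool.Agent.W495.TA Pool.Agent.W495.TC Pool.Agent.TH117.PO Pool.Agent.TH117.BL Pool.Agent.Q43.HN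
  Module

/-- **Homological equivalence and numerical equivalence coincide.** -/
theorem result {p : ℕ} [Fact p.Prime] {ν : PadicAlgCl p ≃+* ℂ} {Ω : Type} [Field Ω] [CharZero Ω]
    [IsAlgClosed Ω] {C : (Y : RedAV p ν) → (κ : Type) → ((TM Ω Y) [⋀^κ]→ₗ[Ω] Ω) → Prop}
    (hC : IsCycleSystem Ω C) (hT : AreTate Ω C) {k₀ : Subfield Ω} (hk : AreRationalOver k₀ C)
    {Z Y : RedAV p ν} {r : ℕ}
    (hZ : IsPrimeProduct Z r ∨
      ((∀ i, IsSupersingular Z i ∨ IsCommutative Z i) ∧ IsDependent Z r))
    (hns : IsNonsplit k₀ Z) (hY : IsPowersTimesSupersingular Z Y)
    {z : (TM Ω Y) [⋀^Fin r × Fin 2]→ₗ[Ω] Ω} (hz : C Y _ z) (hnum : IsNumTrivial Ω C z) :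
    z = 0 := by
  have hctl : IsControlled Z r := by
    rcases hZ with h | ⟨h, h'⟩
    · exact controlled_of_primes Z h
    · exact controlled_of_dependent Z h h'
  exact main_num hC hT hk hns hctl hY hz hnum

end Pool.Agent.Results.MP_0c8446_ag.PrimeDimensions
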