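import Pool.Agent.Q60.TP.Idx

/-!
# Numerical and homological equivalence for all powers and all primes from one power and one prime

Let `X` be a smooth projective variety over a field. We consider `l`-adic cohomology (or another
Weil cohomology theory with an action of the Galois group), and we assume that the centre of the
algebra of the endomorphisms of `H(X)` given by Tate classes on `X × X` has no nonzero element which
is skew for the Poincare pairing.

Suppose that numerical and `l`-adic homological equivalence agree on `X ^ 6` and that all `l`-adic
Tate classes on `X ^ 4` are linear combinations of classes of cycles.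

* If the Galois representations on the cohomology of `X ^ 2` in even degrees are semisimple, then
  numerical and `l`-adic homological equivalence agree on ALL powers of `X`, and all Galois
  representations on the cohomology of the powers are semisimple.
* Let the base field be finitely generated of characteristic `p`, `Γ` its Weil group, `Δ` the
  geometric Galois group and `F` a Frobenius element. By a theorem of Deligne the representations of
  `Δ` are semisimple, and this is sufficient for the first assertion. Moreover, numerical and
  `l'`-adic homological equivalence agree on ALL powers of `X` for ALL primes `l'`, and all `l'`-adic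
  representations of the Galois group on the cohomology of the powers are semisimple. Here one uses
  that the orders of the poles of the L-functions, `poleNumber`, do not depend on `l` (Grothendieck,
  Deligne); nothing is assumed on `l'`-adic Tate classes or cycles.

The known part of conjecture D for the powers in characteristic `p` is the case of divisors, and the
case of abelian varieties for infinitely many `l` (Clozel); there is no positivity (Hodge index
theorem) which could be used. `power X n` is the product of `n` copies of `X`.
-/

open CategoryTheory AlgebraicGeometry

universe u v' w

namespace Pool.Agent.Results.MP_0c8446_ag.SixthPowerAtOnePrime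

open Pool.Agent.H914 Pool.Agent.H914.VarClass
open Pool.Agent.Q55 (GaloisAction TateConj)
open Pool.Agent.Q57.OP (res)
open Pool.Agent.Q56.DP (poleNumber)
open Pool.Agent.Q60.TD (SemisimpleAt power)
open Pool.Agent.Q60.TP (TateCentre SemisimpleAndD GeoSemisimple)

/-- **One power and one prime decide.** -/
theorem result {k : Type u} [Field k] {𝒱 : VarClass k} {ops : CycleOps 𝒱}
    (W : WeilCohomology.{u, 0} ops) (φ : W.K →+* ℂ) {Γ : Type w} [Group Γ]
    (G : GaloisAction W Γ) (X : 𝒱.Obj) [Nontrivial (W.H X)] (D : X.Cycles) (hD : X.IsCyc 1 D)
    (hHL : HardLefschetz W X D) (hc : TateCentre G X) (h4 : TateConj G (power X 4))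
    (h6 : HomEqNum W (power X 6)) :
    ((∀ j, SemisimpleAt G (power X 2) (2 * j)) → SemisimpleAndD G X) ∧
    ∀ (Δ : Subgroup Γ) [Δ.Normal] (F : Γ), (∀ g : Γ, ∃ m : ℤ, ∃ d ∈ Δ, g = F ^ m * d) →
      (∀ j, SemisimpleAt (res G Δ) (power X 2) (2 * j)) →
      SemisimpleAndD G X ∧
      ∀ (W' : WeilCohomology.{u, v'} ops) [Nontrivial (W'.H X)] (G' : GaloisAction W' Γ),
        poleNumber G Δ F X = poleNumber G' Δ F X →
        (∀ n, HomEqNum W' (power X n)) ∧ (GeoSemisimple G' Δ X → SemisimpleAndD G' X) :=
  Pool.Agent.Q60.TP.sixth φ hc hD hHL h4 h6

end Pool.Agent.Results.MP_0c8446_ag.SixthPowerAtOnePrime
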